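import Mathlib

/-!
Exponential deterministic state complexity of edit-distance balls.

For every alphabet with at least two letters and all `n`, `k` there is a word `x` of length `n`
such that the minimal complete DFA of the radius-`k` edit-distance ball around `x` has at least
`2 ^ (min k n / 2)` states.
-/

namespace Pool.Agent.Results.MP_ecf776_lc.ExpBall

/-- One edit operation: `v` arises from `u` by inserting, deleting or substituting one symbol. -/
def EditStep {α : Type} (u v : List α) : Prop :=
  ∃ (p q : List α) (c : α),
    (u = p ++ q ∧ v = p ++ c :: q) ∨ (u = p ++ c :: q ∧ v = p ++ q) ∨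
      ∃ d : α, u = p ++ c :: q ∧ v = p ++ d :: q

/-- `EditsIn n u v`: some sequence of exactly `n` edit operations transforms `u` into `v`. -/
def EditsIn {α : Type} : ℕ → List α → List α → Prop
  | 0, u, v => u = v
  | n + 1, u, v => ∃ w : List α, EditStep u w ∧ EditsIn n w v

/-- The edit (Levenshtein) distance: the least number of edit operations from `u` to `v`. -/
noncomputable def editDist {α : Type} (u v : List α) : ℕ := sInf {n : ℕ | EditsIn n u v}

/-- The ball of radius `k` around `x`. -/
def ball {α : Type} (x : List α) (k : ℕ) : Language α := {w : List α | editDist x w ≤ k}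

/-- State complexity: the least number of states of a complete DFA recognising `L`. -/
noncomputable def sc {α : Type} (L : Language α) : ℕ :=
  sInf {m : ℕ | ∃ M : DFA α (Fin m), M.accepts = L}

section Basics

variable {α : Type}

/-- At most `n` edit operations. -/
def Within (n : ℕ) (u v : List α) : Prop := ∃ m ≤ n, EditsIn m u v

lemma EditStep.append_left (s : List α) {u v : List α} (h : EditStep u v) :
    EditStep (s ++ u) (s ++ v) := by
  obtain ⟨p, q, c, h | h | ⟨d, h⟩⟩ := h
  · exact ⟨s ++ p, q, c, Or.inl (by simp [h.1, h.2])⟩
  · exact ⟨s ++ p, q, c, Or.inr (Or.inl (by simp [h.1, h.2]))⟩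
  · exact ⟨s ++ p, q, c, Or.inr (Or.inr ⟨d, by simp [h.1, h.2]⟩)⟩

lemma EditStep.append_right (s : List α) {u v : List α} (h : EditStep u v) :
    EditStep (u ++ s) (v ++ s) := by
  obtain ⟨p, q, c, h | h | ⟨d, h⟩⟩ := h
  · exact ⟨p, q ++ s, c, Or.inl (by simp [h.1, h.2])⟩
  · exact ⟨p, q ++ s, c, Or.inr (Or.inl (by simp [h.1, h.2]))⟩
  · exact ⟨p, q ++ s, c, Or.inr (Or.inr ⟨d, by simp [h.1, h.2]⟩)⟩

lemma EditsIn.append_left (s : List α) :
    ∀ (n : ℕ) {u v : List α}, EditsIn n u v → EditsIn n (s ++ u) (s ++ v)
  | 0, u, v, h => by
      have h' : u = v := h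
      show s ++ u = s ++ v
      rw [h']
  | n + 1, u, v, h => by
      obtain ⟨w, h1, h2⟩ := h
      exact ⟨s ++ w, h1.append_left s, EditsIn.append_left s n h2⟩

lemma EditsIn.append_right (s : List α) :
    ∀ (n : ℕ) {u v : List α}, EditsIn n u v → EditsIn n (u ++ s) (v ++ s)
  | 0, u, v, h => by
      have h' : u = v := h
      show u ++ s = v ++ s
      rw [h']
  | n + 1, u, v, h => by
      obtain ⟨w, h1, h2⟩ := h
      exact ⟨w ++ s, h1.append_right s, EditsIn.append_right s n h2⟩

lemma EditsIn.trans :
    ∀ (m : ℕ) {n : ℕ} {u v w : List α}, EditsIn m u v → EditsIn n v w → EditsIn (n + m) u w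
  | 0, n, u, v, w, h1, h2 => by
      have h' : u = v := h1
      subst h'
      exact h2
  | m + 1, n, u, v, w, h1, h2 => by
      obtain ⟨z, h3, h4⟩ := h1
      exact ⟨z, h3, EditsIn.trans m h4 h2⟩

lemma Within.refl (u : List α) : Within 0 u u := ⟨0, le_rfl, rfl⟩

lemma Within.mono {m n : ℕ} {u v : List α} (h : Within m u v) (hmn : m ≤ n) : Within n u v := by
  obtain ⟨k, hk, h⟩ := h
  exact ⟨k, hk.trans hmn, h⟩

lemma Within.trans {m n : ℕ} {u v w : List α} (h1 : Within m u v) (h2 : Within n v w) :
    Within (m + n) u w := by
  obtain ⟨a, ha, h1⟩ := h1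
  obtain ⟨b, hb, h2⟩ := h2
  exact ⟨b + a, by omega, EditsIn.trans a h1 h2⟩

lemma Within.append {m n : ℕ} {u v u' v' : List α} (h1 : Within m u v) (h2 : Within n u' v') :
    Within (m + n) (u ++ u') (v ++ v') := by
  obtain ⟨a, ha, h1⟩ := h1
  obtain ⟨b, hb, h2⟩ := h2
  exact Within.trans ⟨a, ha, EditsIn.append_right u' a h1⟩ ⟨b, hb, EditsIn.append_left v b h2⟩

lemma within_of_step {u v : List α} (h : EditStep u v) : Within 1 u v :=
  ⟨1, le_rfl, v, h, rfl⟩

lemma within_ins (c : α) : Within 1 ([] : List α) [c] :=
  within_of_step ⟨[], [], c, Or.inl ⟨rfl, rfl⟩⟩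

lemma within_del (c : α) : Within 1 [c] ([] : List α) :=
  within_of_step ⟨[], [], c, Or.inr (Or.inl ⟨rfl, rfl⟩)⟩

lemma within_sub (c d : α) : Within 1 [c] [d] :=
  within_of_step ⟨[], [], c, Or.inr (Or.inr ⟨d, rfl, rfl⟩)⟩

lemma within_of_sublist {u v : List α} (h : u.Sublist v) : Within (v.length - u.length) u v := by
  induction h with
  | slnil => exact Within.refl _
  | @cons l₁ l₂ a h ih =>
      have h1 := (within_ins a).append ih
      have h2 := h.length_le
      simp only [List.nil_append, List.singleton_append] at h1
      refine h1.mono ?_
      simp only [List.length_cons]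
      omega
  | @cons_cons l₁ l₂ a h ih =>
      have h1 := (Within.refl [a]).append ih
      simp only [List.singleton_append] at h1
      refine h1.mono ?_
      simp only [List.length_cons]
      omega

lemma within_of_length_le : ∀ (u v : List α), u.length ≤ v.length → Within v.length u v
  | [], v, _ => by simpa using within_of_sublist (List.nil_sublist v)
  | _ :: _, [], h => by simp at h
  | c :: u, d :: v, h => by
      have h1 := (within_sub c d).append (within_of_length_le u v (by simpa using h))
      simp only [List.singleton_append] at h1
      refine h1.mono ?_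
      simp only [List.length_cons]
      omega

lemma within_nil : ∀ u : List α, Within u.length u []
  | [] => Within.refl _
  | c :: u => by
      have h1 := (within_del c).append (within_nil u)
      simp only [List.singleton_append, List.nil_append] at h1
      refine h1.mono ?_
      simp only [List.length_cons]
      omega

lemma exists_editsIn (u v : List α) : ∃ n, EditsIn n u v := by
  obtain ⟨n, -, h⟩ := (within_nil u).trans (within_of_length_le [] v (by simp))
  exact ⟨n, h⟩

lemma editDist_le_iff (u v : List α) (k : ℕ) : editDist u v ≤ k ↔ Within k u v := by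
  constructor
  · intro h
    exact ⟨editDist u v, h, Nat.sInf_mem (exists_editsIn u v)⟩
  · rintro ⟨m, hm, h⟩
    exact (Nat.sInf_le h).trans hm

lemma sublist_drop_one {s p q : List α} {c : α} (h : s.Sublist (p ++ c :: q)) :
    ∃ s' : List α, s'.Sublist s ∧ s'.Sublist (p ++ q) ∧ s.length ≤ s'.length + 1 := by
  obtain ⟨s1, s2, rfl, h1, h2⟩ := List.sublist_append_iff.1 h
  rcases List.sublist_cons_iff.1 h2 with h3 | ⟨r, rfl, h3⟩
  · exact ⟨s1 ++ s2, List.Sublist.refl _, h1.append h3, by omega⟩
  · refine ⟨s1 ++ r, (List.Sublist.refl s1).append (List.sublist_cons_self _ _), h1.append h3, ?_⟩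
    simp only [List.length_append, List.length_cons]
    omega

/-- Lower bound through a common subsequence. -/
lemma common_of_editsIn :
    ∀ (n : ℕ) {u v : List α}, EditsIn n u v →
      ∃ s : List α, s.Sublist u ∧ s.Sublist v ∧ v.length ≤ s.length + n
  | 0, u, v, h => by
      have h' : u = v := h
      subst h'
      exact ⟨u, List.Sublist.refl _, List.Sublist.refl _, by omega⟩
  | n + 1, u, v, h => by
      obtain ⟨w, h1, h2⟩ := h
      obtain ⟨s, hs1, hs2, hs3⟩ := common_of_editsIn n h2
      obtain ⟨p, q, c, h | h | ⟨d, h⟩⟩ := h1
      · obtain ⟨rfl, rfl⟩ := h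
        obtain ⟨s', a1, a2, a3⟩ := sublist_drop_one hs1
        exact ⟨s', a2, a1.trans hs2, by omega⟩
      · obtain ⟨rfl, rfl⟩ := h
        exact ⟨s, hs1.trans ((List.Sublist.refl p).append (List.sublist_cons_self _ _)), hs2,
          by omega⟩
      · obtain ⟨rfl, rfl⟩ := h
        obtain ⟨s', a1, a2, a3⟩ := sublist_drop_one hs1
        exact ⟨s', a2.trans ((List.Sublist.refl p).append (List.sublist_cons_self _ _)),
          a1.trans hs2, by omega⟩

lemma length_le_of_mem_ball {x w : List α} {k : ℕ} (h : w ∈ ball x k) :
    w.length ≤ x.length + k := by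
  obtain ⟨m, hm, h⟩ := (editDist_le_iff x w k).1 h
  obtain ⟨s, h1, -, h3⟩ := common_of_editsIn m h
  have := h1.length_le
  omega

lemma exists_dfa [Fintype α] (x : List α) (k : ℕ) :
    ∃ m : ℕ, ∃ M : DFA α (Fin m), M.accepts = ball x k := by
  have hfin : Set.Finite (Set.range (ball x k).leftQuotient) := by
    have h1 : Set.Finite {w : List α | w.length ≤ x.length + k} := List.finite_length_le α _
    refine h1.finite_subsets.subset ?_
    rintro _ ⟨y, rfl⟩ w hw
    have h2 := length_le_of_mem_ball ((Language.mem_leftQuotient y w).1 hw)
    simp only [List.length_append] at h2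
    show w.length ≤ x.length + k
    omega
  obtain ⟨σ, hσ, M, hM⟩ := Language.IsRegular.of_finite_range_leftQuotient hfin
  exact ⟨Fintype.card σ, DFA.reindex (Fintype.equivFin σ) M, by simp [hM]⟩

end Basics

section Construction

variable {α : Type} [DecidableEq α] (a b : α)

/-- The block word of a bit string: one `b` per bit, followed by an `a` when the bit is set. -/
def blocks : List Bool → List α
  | [] => []
  | true :: e => b :: a :: blocks e
  | false :: e => b :: blocks e

omit [DecidableEq α] in
lemma blocks_append : ∀ e f : List Bool, blocks a b (e ++ f) = blocks a b e ++ blocks a b f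
  | [], f => rfl
  | true :: e, f => by simp [blocks, blocks_append e f]
  | false :: e, f => by simp [blocks, blocks_append e f]

omit [DecidableEq α] in
lemma length_blocks : ∀ e : List Bool, (blocks a b e).length = e.length + e.count true
  | [] => rfl
  | true :: e => by simp [blocks, length_blocks e]; omega
  | false :: e => by simp [blocks, length_blocks e]; omega

variable {a b}

lemma count_a_blocks (hab : a ≠ b) : ∀ e : List Bool, (blocks a b e).count a = e.count true
  | [] => rfl
  | true :: e => by simp [blocks, count_a_blocks hab e, hab.symm]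
  | false :: e => by simp [blocks, count_a_blocks hab e, hab.symm]

lemma count_b_blocks (hab : a ≠ b) : ∀ e : List Bool, (blocks a b e).count b = e.length
  | [] => rfl
  | true :: e => by simp [blocks, count_b_blocks hab e, hab]
  | false :: e => by simp [blocks, count_b_blocks hab e]

/-- In `blocks e ++ b^l ++ a^t`, cut so that the second part contains a `b`: the first part has at
most as many `a` as `b`. -/
lemma cut_count (hab : a ≠ b) (l t : ℕ) :
    ∀ (e : List Bool) (z y : List α),
      z ++ y = blocks a b e ++ (List.replicate l b ++ List.replicate t a) → b ∈ y →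
        z.count a ≤ z.count b
  | [], z, y, h, hb => by
      simp only [blocks, List.nil_append] at h
      rcases List.append_eq_append_iff.1 h with ⟨c, h1, -⟩ | ⟨c, -, h2⟩
      · have h3 : a ∉ z := by
          intro h4
          have : a ∈ List.replicate l b := by rw [h1]; simp [h4]
          exact hab (List.eq_of_mem_replicate this)
        simp [List.count_eq_zero_of_not_mem h3]
      · exfalso
        have : b ∈ List.replicate t a := by rw [h2]; simp [hb]
        exact hab (List.eq_of_mem_replicate this).symm
  | false :: e, z, y, h, hb => by
      cases z with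
      | nil => simp
      | cons c z =>
        simp only [blocks, List.cons_append, List.cons.injEq] at h
        obtain ⟨hc, h⟩ := h
        have := cut_count hab l t e z y h hb
        rw [hc]
        simp [hab.symm]
        omega
  | true :: e, z, y, h, hb => by
      cases z with
      | nil => simp
      | cons c z =>
        simp only [blocks, List.cons_append, List.cons.injEq] at h
        obtain ⟨hc, h⟩ := h
        rw [hc]
        cases z with
        | nil => simp [hab.symm]
        | cons d z =>
          simp only [List.cons_append, List.cons.injEq] at h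
          obtain ⟨hd, h⟩ := h
          have := cut_count hab l t e z y h hb
          rw [hd]
          simp [hab, hab.symm]
          omega

/-- The test word: `b^r`, the blocks of `e1 ++ e2`, then `b^l a^t`. -/
def test (a b : α) (r l t : ℕ) (e1 e2 : List Bool) : List α :=
  (List.replicate r b ++ blocks a b e1) ++
    (blocks a b e2 ++ (List.replicate l b ++ List.replicate t a))

lemma within_test (hab : a ≠ b) (r l t : ℕ) (e1 e2 : List Bool) (h : e1.length ≤ r) :
    Within (r + e1.length + e2.count true + t)
      (List.replicate r a ++ List.replicate (e2.length + l) b) (test a b r l t e1 e2) := by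
  have hc : e1.count true ≤ e1.length := List.count_le_length
  have h1 : Within r (List.replicate (r - e1.count true) a) (List.replicate r b) := by
    simpa using within_of_length_le (List.replicate (r - e1.count true) a) (List.replicate r b)
      (by simp)
  have h2 : Within e1.length (List.replicate (e1.count true) a) (blocks a b e1) := by
    have := within_of_sublist (u := List.replicate (e1.count true) a) (v := blocks a b e1)
      (List.replicate_sublist_iff.2 (by rw [count_a_blocks hab]))
    simpa [length_blocks] using this
  have h3 : Within (e2.count true + t) (List.replicate (e2.length + l) b)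
      (blocks a b e2 ++ (List.replicate l b ++ List.replicate t a)) := by
    have := within_of_sublist (u := List.replicate (e2.length + l) b)
      (v := blocks a b e2 ++ (List.replicate l b ++ List.replicate t a))
      (List.replicate_sublist_iff.2 (by simp [count_b_blocks hab]))
    refine this.mono ?_
    simp [length_blocks]
    omega
  have h4 := (h1.append h2).append h3
  rw [← List.replicate_add, Nat.sub_add_cancel (hc.trans h)] at h4
  refine h4.mono (by omega)

lemma le_of_within_test (hab : a ≠ b) (r l t k : ℕ) (e1 e2 : List Bool) (h : r ≤ e2.length + l)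
    (hw : Within k (List.replicate r a ++ List.replicate (e2.length + l) b)
      (test a b r l t e1 e2)) :
    r + e1.length + e2.count true + t ≤ k := by
  obtain ⟨m, hm, hw⟩ := hw
  obtain ⟨s, h1, h2, h3⟩ := common_of_editsIn m hw
  obtain ⟨s1, s2, rfl, h4, h5⟩ := List.sublist_append_iff.1 h1
  obtain ⟨p, hp, rfl⟩ := List.sublist_replicate_iff.1 h4
  obtain ⟨q, hq, rfl⟩ := List.sublist_replicate_iff.1 h5
  have hlen : (test a b r l t e1 e2).length =
      r + e1.length + e1.count true + e2.length + e2.count true + l + t := by
    simp [test, length_blocks]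
    omega
  have key : p + q ≤ e1.count true + e2.length + l := by
    rcases Nat.eq_zero_or_pos q with rfl | hq0
    · omega
    obtain ⟨y1, y2, hy, h6, h7⟩ := List.append_sublist_iff.1 h2
    have h8 := List.replicate_sublist_iff.1 h6
    have h9 := List.replicate_sublist_iff.1 h7
    have hU : (List.replicate r b ++ blocks a b e1).count a = e1.count true := by
      simp [count_a_blocks hab, List.count_replicate, hab.symm]
    have hV : (blocks a b e2 ++ (List.replicate l b ++ List.replicate t a)).count b =
        e2.length + l := by
      simp [count_b_blocks hab, List.count_replicate, hab]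
    rcases List.append_eq_append_iff.1 hy with ⟨z, hz1, hz2⟩ | ⟨z, hz1, hz2⟩
    · have hb : b ∈ y2 := List.count_pos_iff.1 (by omega)
      have h10 := cut_count hab l t e2 z y2 hz2.symm hb
      rw [hz2, List.count_append] at hV
      rw [hz1, List.count_append, hU] at h8
      omega
    · rw [hz1, List.count_append] at hU
      omega
  simp only [List.length_append, List.length_replicate] at h3
  omega

lemma eq_of_count_drop : ∀ (e f : List Bool), e.length = f.length →
    (∀ j ≤ e.length, (e.drop j).count true = (f.drop j).count true) → e = f
  | [], [], _, _ => rfl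
  | [], _ :: _, h, _ => by simp at h
  | _ :: _, [], h, _ => by simp at h
  | x :: e, y :: f, h, hc => by
      have h1 : e = f := eq_of_count_drop e f (by simpa using h) (fun j hj => by
        simpa using hc (j + 1) (by simpa using hj))
      subst h1
      have h2 := hc 0 (by simp)
      cases x <;> cases y <;> simp_all

lemma separate (hab : a ≠ b) (n k r : ℕ) (hn : 2 * r ≤ n) (hk : 2 * r ≤ k) (e f : List Bool)
    (he : e.length = r) (hf : f.length = r) (j : ℕ) (hj : j ≤ r)
    (hlt : (e.drop j).count true < (f.drop j).count true) :
    ∃ z : List α,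
      (List.replicate r b ++ blocks a b e) ++ z ∈
          ball (List.replicate r a ++ List.replicate (n - r) b) k ∧
        (List.replicate r b ++ blocks a b f) ++ z ∉
          ball (List.replicate r a ++ List.replicate (n - r) b) k := by
  have hc : (e.drop j).count true ≤ (e.drop j).length := List.count_le_length
  have hle : (e.drop j).length = r - j := by simp [he]
  have hlf : (f.drop j).length = r - j := by simp [hf]
  have hte : (e.take j).length = j := by simp [he, hj]
  have htf : (f.take j).length = j := by simp [hf, hj]
  have hshape : ∀ (g : List Bool) (l t : ℕ), (List.replicate r b ++ blocks a b g) ++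
      (List.replicate l b ++ List.replicate t a) = test a b r l t (g.take j) (g.drop j) := by
    intro g l t
    conv_lhs => rw [← List.take_append_drop j g, blocks_append]
    simp [test]
  refine ⟨List.replicate (n - r - (r - j)) b ++
    List.replicate (k - (r + j + (e.drop j).count true)) a, ?_, ?_⟩
  · rw [hshape]
    refine (editDist_le_iff _ _ _).2 ?_
    have := within_test hab r (n - r - (r - j)) (k - (r + j + (e.drop j).count true))
      (e.take j) (e.drop j) (by omega)
    rw [show (e.drop j).length + (n - r - (r - j)) = n - r by omega] at this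
    exact this.mono (by omega)
  · rw [hshape]
    intro hmem
    have h1 := (editDist_le_iff _ _ _).1 hmem
    rw [show n - r = (f.drop j).length + (n - r - (r - j)) by omega] at h1
    rw [show (f.drop j).length + (n - r - (r - j)) - (r - j) = n - r - (r - j) by omega] at h1
    have := le_of_within_test hab r _ _ k (f.take j) (f.drop j) (by omega) h1
    omega

lemma two_pow_le_card (hab : a ≠ b) (n k r : ℕ) (hn : 2 * r ≤ n) (hk : 2 * r ≤ k) (m : ℕ)
    (M : DFA α (Fin m))
    (hM : M.accepts = ball (List.replicate r a ++ List.replicate (n - r) b) k) : 2 ^ r ≤ m := by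
  have hsep : ∀ e f : List Bool, e.length = r → f.length = r → ∀ j ≤ r,
      M.eval (List.replicate r b ++ blocks a b e) = M.eval (List.replicate r b ++ blocks a b f) →
        ¬ (e.drop j).count true < (f.drop j).count true := by
    intro e f he hf j hj hef hlt
    obtain ⟨z, h1, h2⟩ := separate hab n k r hn hk e f he hf j hj hlt
    apply h2
    rw [← hM, DFA.mem_accepts] at h1 ⊢
    unfold DFA.eval at h1 hef ⊢
    rw [DFA.evalFrom_of_append] at h1 ⊢
    rwa [← hef]
  have hinj : Function.Injective
      (fun g : Fin r → Bool => M.eval (List.replicate r b ++ blocks a b (List.ofFn g))) := by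
    intro g g' hg
    apply List.ofFn_injective
    refine eq_of_count_drop _ _ (by simp) (fun j hj => ?_)
    have hj' : j ≤ r := by simpa using hj
    have h1 := hsep (List.ofFn g) (List.ofFn g') (by simp) (by simp) j hj' hg
    have h2 := hsep (List.ofFn g') (List.ofFn g) (by simp) (by simp) j hj' hg.symm
    omega
  simpa using Fintype.card_le_of_injective _ hinj

end Construction

/-- Over every finite alphabet with at least two letters, for all `n` and `k`, some word `x` of
length `n` has a radius-`k` edit-distance ball whose minimal complete DFA has at least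
`2 ^ ⌊min(k, n) / 2⌋` states. -/
theorem result :
    ∀ (α : Type) [Fintype α], 2 ≤ Fintype.card α → ∀ n k : ℕ,
      ∃ x : List α, x.length = n ∧ 2 ^ (min k n / 2) ≤ sc (ball x k) := by
  intro α _ hα n k
  classical
  obtain ⟨a, b, hab⟩ := Fintype.exists_pair_of_one_lt_card (α := α) (by omega)
  set r := min k n / 2 with hr
  have hn : 2 * r ≤ n := by omega
  have hk : 2 * r ≤ k := by omega
  refine ⟨List.replicate r a ++ List.replicate (n - r) b, by simp; omega, ?_⟩
  obtain ⟨M, hM⟩ := Nat.sInf_mem (exists_dfa (List.replicate r a ++ List.replicate (n - r) b) k)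
  exact two_pow_le_card hab n k r hn hk _ M hM

end Pool.Agent.Results.MP_ecf776_lc.ExpBall
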